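import Mathlib
import Pool.Agent.X126.RicC

/-! # MP_1a9240_co: attaching a leaf at a vertex of degree 3 can lower the largest eigenvalue of the
Ricci matrix

The definitions (in `Pool.Agent.X126.Ric`):

* `ricci G` is the Ricci matrix of the finite graph `G`, indexed by the edges: the diagonal entry at
  `e = {x, y}` is `-(1/d_x + 1/d_y)`, the entry at `e ≠ e'` is the sum of `1/d_x` over the common
  vertices `x` of `e` and `e'` (at most one);
* `lamMax M` is the largest real eigenvalue of the matrix `M` (the supremum of the eigenvalues);
* `attach G v` is the graph on `Option V` obtained from `G` by attaching the new leaf `none` at `v`.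

The counterexample `GT` to Q1 is the rooted tree with 1915 vertices in which the root has degree 3
and the vertices at distance 1, 2, 3, 4 from the root have degree 14, 9, 6, 1. The vertex `v` is the
root. By symmetry the three edge values of the Perron vector at the root are equal, and this is the
reason why the additional leaf lowers the eigenvalue as soon as the eigenvalue is larger than 1. The
proof is by explicit positive vectors which are constant on the edges of every level. -/

set_option autoImplicit false

open Pool.Agent.X126.Ric

namespace Pool.Agent.Results.MP_1a9240_co.DegreeThree

open Classical in
/-- **Main result.** Q1 is false: there are a tree and a vertex of degree 3 in it such that attaching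
a leaf at this vertex strictly lowers the largest eigenvalue of the Ricci matrix. -/
theorem result :
    (¬ ∀ (V : Type) [Fintype V] (G : SimpleGraph V) (v : V), G.IsTree → G.degree v = 3 →
      lamMax (ricci G) ≤ lamMax (ricci (attach G v))) ∧
    (GT.IsTree ∧ GT.degree rt = 3 ∧ lamMax (ricci (attach GT rt)) ≤ 1.003937 ∧
      1.003944 ≤ lamMax (ricci GT)) := by
  refine ⟨fun h => ?_, isTree_GT, ?_, ?_, ?_⟩
  · have h1 := h VT GT rt isTree_GT (by convert degree_GT)
    have h2 := main
    exact absurd h1 (not_le.2 (by convert h2))
  · convert degree_GT
  · have := upper_O
    rw [← attach_eq] at this
    convert this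
  · exact lower_T

end Pool.Agent.Results.MP_1a9240_co.DegreeThree
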